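import Pool.Agent.Helper67.NO.St5

set_option autoImplicit false

namespace Pool.Agent.Helper14.NO

open Pool.Agent.Helper67.NO
open Matrix
open scoped Matrix.Norms.Frobenius ContDiff Topology

variable {ι κ : Type} [Fintype ι] [DecidableEq ι] [Fintype κ] [DecidableEq κ]

/-- smoothness of the exponential -/
private theorem exp_smooth : ContDiff ℝ ∞ (fun X : Matrix ι ι ℂ => NormedSpace.exp X) := by
  rw [contDiff_iff_contDiffAt]
  intro X
  exact (NormedSpace.exp_analytic (𝕂 := ℝ) X).contDiffAt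

/-- the linear map `w ↦ ∑ w j • Z j` -/
private theorem lin_smooth {k : ℕ} (Z : Fin k → Matrix ι ι ℂ) :
    ContDiff ℝ ∞ (fun w : Fin k → ℂ => ∑ j, w j • Z j) := by
  apply ContDiff.sum
  intro j _
  exact (contDiff_apply ℝ ℂ j).smul contDiff_const

private theorem conj_smooth {k : ℕ} (Z : Fin k → Matrix ι ι ℂ) :
    ContDiff ℝ ∞ (fun w : Fin k → ℂ => NormedSpace.exp (∑ j, w j • Z j)) :=
  exp_smooth.comp (lin_smooth Z)

private theorem hd_exp (X : Matrix ι ι ℂ) :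
    HasDerivAt (fun s : ℝ => NormedSpace.exp (s • X)) X 0 := by
  have h : HasDerivAt (fun s : ℝ => NormedSpace.exp (s • X))
      (NormedSpace.exp ((0 : ℝ) • X) * X) 0 := hasDerivAt_exp_smul_const (𝕂 := ℝ) X (0 : ℝ)
  have h' : NormedSpace.exp ((0 : ℝ) • X) * X = X := by
    rw [zero_smul, NormedSpace.exp_zero, Matrix.one_mul]
  rw [h'] at h
  exact h

private theorem unitE (X : Matrix ι ι ℂ) : IsUnit (NormedSpace.exp X) := Matrix.isUnit_exp X

private theorem mul_inv_E (X : Matrix ι ι ℂ) : NormedSpace.exp X * (NormedSpace.exp X)⁻¹ = 1 :=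
  Matrix.mul_nonsing_inv _ ((Matrix.isUnit_iff_isUnit_det _).mp (unitE X))

private theorem inv_mul_E (X : Matrix ι ι ℂ) : (NormedSpace.exp X)⁻¹ * NormedSpace.exp X = 1 :=
  Matrix.nonsing_inv_mul _ ((Matrix.isUnit_iff_isUnit_det _).mp (unitE X))

/-- `(t • c) j • Z j` sums up to `t • Z_c` -/
private theorem sum_smul {k : ℕ} (Z : Fin k → Matrix ι ι ℂ) (c : Fin k → ℂ) (t : ℝ) :
    ∑ j, (t • c) j • Z j = t • ∑ j, c j • Z j := by
  rw [Finset.smul_sum]
  refine Finset.sum_congr rfl fun j _ => ?_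
  rw [Pi.smul_apply, smul_assoc]

private noncomputable def ff (lev : κ → ℕ) (A : Matrix ι ι ℂ) {k : ℕ} (Z : Fin k → Matrix ι ι ℂ)
    (w : Fin k → ℂ) : ℝ :=
  rho lev (NormedSpace.exp (∑ j, w j • Z j) * A * NormedSpace.exp (-∑ j, w j • Z j))

private theorem ff_smooth (lev : κ → ℕ) (hI : IfA ι lev) (h1 : StNIL) (A : Matrix ι ι ℂ)
    (hA : RT lev A) {k : ℕ} (Z : Fin k → Matrix ι ι ℂ) : ContDiff ℝ ∞ (ff lev A Z) := by
  rw [contDiff_iff_contDiffAt]
  intro w₀
  set E : (Fin k → ℂ) → Matrix ι ι ℂ := fun w => NormedSpace.exp (∑ j, w j • Z j) with hE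
  have hA0 : RT lev (E w₀ * A * (E w₀)⁻¹) := (h1 ι κ lev A hA).2.1 _ (unitE _)
  have hs := hI.smooth _ hA0
  have hg : ContDiff ℝ ∞ (fun w => E w * (E w₀)⁻¹) := (conj_smooth Z).mul contDiff_const
  have hg0 : E w₀ * (E w₀)⁻¹ = 1 := mul_inv_E _
  have hfun : ff lev A Z = fun w => (fun g : Matrix ι ι ℂ =>
      rho lev (g * (E w₀ * A * (E w₀)⁻¹) * g⁻¹)) (E w * (E w₀)⁻¹) := by
    funext w
    have h2 : (E w * (E w₀)⁻¹)⁻¹ = E w₀ * (E w)⁻¹ := by
      rw [Matrix.mul_inv_rev, Matrix.nonsing_inv_nonsing_inv _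
        ((Matrix.isUnit_iff_isUnit_det _).mp (unitE _))]
    have h3 : (E w₀)⁻¹ * E w₀ = 1 := inv_mul_E _
    have h4 : E w * (E w₀)⁻¹ * (E w₀ * A * (E w₀)⁻¹) * (E w * (E w₀)⁻¹)⁻¹ = E w * A * (E w)⁻¹ := by
      rw [h2]
      calc E w * (E w₀)⁻¹ * (E w₀ * A * (E w₀)⁻¹) * (E w₀ * (E w)⁻¹)
          = E w * ((E w₀)⁻¹ * E w₀) * A * ((E w₀)⁻¹ * E w₀) * (E w)⁻¹ := by
            simp only [Matrix.mul_assoc]
        _ = E w * A * (E w)⁻¹ := by rw [h3, Matrix.mul_one, Matrix.mul_one]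
    show rho lev (E w * A * NormedSpace.exp (-∑ j, w j • Z j)) = rho lev _
    rw [h4, Matrix.exp_neg]
  rw [hfun]
  have hs' : ContDiffAt ℝ ∞ (fun g : Matrix ι ι ℂ =>
      rho lev (g * (E w₀ * A * (E w₀)⁻¹) * g⁻¹)) (E w₀ * (E w₀)⁻¹) := by
    rw [hg0]
    exact hs
  have hc := ContDiffAt.comp (g := fun g : Matrix ι ι ℂ =>
      rho lev (g * (E w₀ * A * (E w₀)⁻¹) * g⁻¹)) (f := fun w => E w * (E w₀)⁻¹) w₀ hs'
      hg.contDiffAt
  exact hc

/-- first derivative along a ray -/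
private theorem ff_deriv (lev : κ → ℕ) (hI : IfA ι lev) (h1 : StNIL) (A : Matrix ι ι ℂ)
    (hA : RT lev A) {k : ℕ} (Z : Fin k → Matrix ι ι ℂ) (c : Fin k → ℂ) (t : ℝ) :
    fderiv ℝ (ff lev A Z) (t • c) c = 2 * (trace ((∑ j, c j • Z j) *
      Hm lev (NormedSpace.exp (t • ∑ j, c j • Z j) * A *
        (NormedSpace.exp (t • ∑ j, c j • Z j))⁻¹))).re := by
  set X : Matrix ι ι ℂ := ∑ j, c j • Z j with hX
  set G : Matrix ι ι ℂ := NormedSpace.exp (t • X) with hG
  have hAt : RT lev (G * A * G⁻¹) := (h1 ι κ lev A hA).2.1 _ (unitE _)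
  rw [← hI.grad _ hAt X]
  have hd1 : HasDerivAt (fun s : ℝ => ff lev A Z ((t + s) • c)) (fderiv ℝ (ff lev A Z) (t • c) c) 0 := by
    have hf := ((ff_smooth lev hI h1 A hA Z).differentiable (by simp)).differentiableAt
      (x := t • c) |>.hasFDerivAt
    have hl : HasDerivAt (fun s : ℝ => (t + s) • c) c 0 := by
      have := ((hasDerivAt_id (0 : ℝ)).const_add t).smul_const c
      simpa using this
    have hf' : HasFDerivAt (ff lev A Z) (fderiv ℝ (ff lev A Z) (t • c)) ((t + 0) • c) := by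
      rw [add_zero]; exact hf
    exact hf'.comp_hasDerivAt (0 : ℝ) hl
  have hd2 : HasDerivAt (fun s : ℝ => ff lev A Z ((t + s) • c))
      (fderiv ℝ (fun g : Matrix ι ι ℂ => rho lev (g * (G * A * G⁻¹) * g⁻¹)) 1 X) 0 := by
    have hfun : (fun s : ℝ => ff lev A Z ((t + s) • c)) = fun s : ℝ =>
        (fun g : Matrix ι ι ℂ => rho lev (g * (G * A * G⁻¹) * g⁻¹)) (NormedSpace.exp (s • X)) := by
      funext s
      have h2 : NormedSpace.exp ((t + s) • X) = NormedSpace.exp (s • X) * G := by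
        rw [add_comm t s, add_smul, Matrix.exp_add_of_commute]
        exact (Commute.refl X).smul_left s |>.smul_right t
      have h3 : (NormedSpace.exp ((t + s) • X))⁻¹ = G⁻¹ * (NormedSpace.exp (s • X))⁻¹ := by
        rw [h2, Matrix.mul_inv_rev]
      show rho lev (NormedSpace.exp (∑ j, ((t + s) • c) j • Z j) * A *
        NormedSpace.exp (-∑ j, ((t + s) • c) j • Z j)) = rho lev _
      rw [sum_smul, Matrix.exp_neg, ← hX, h3, h2]
      simp only [Matrix.mul_assoc]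
    rw [hfun]
    have hs := (hI.smooth _ hAt).differentiableAt (by simp) |>.hasFDerivAt
    have hs' : HasFDerivAt (fun g : Matrix ι ι ℂ => rho lev (g * (G * A * G⁻¹) * g⁻¹))
        (fderiv ℝ (fun g : Matrix ι ι ℂ => rho lev (g * (G * A * G⁻¹) * g⁻¹)) 1)
        (NormedSpace.exp ((0 : ℝ) • X)) := by
      rw [zero_smul, NormedSpace.exp_zero]; exact hs
    exact hs'.comp_hasDerivAt (0 : ℝ) (hd_exp X)
  exact hd1.unique hd2

theorem pDCU (h1 : StNIL) : StDCU := by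
  intro ι κ _ _ _ _ lev hI A hA k Z
  refine ⟨ff_smooth lev hI h1 A hA Z, fun c => ?_⟩
  change D2 (ff lev A Z) c c = _
  have hsm := ff_smooth lev hI h1 A hA Z
  have hdp : Differentiable ℝ (fun p => fderiv ℝ (ff lev A Z) p c) := by
    have h2 : ContDiff ℝ ∞ (fun p => fderiv ℝ (ff lev A Z) p c) :=
      (hsm.fderiv_right (m := ∞) (by simp)).clm_apply contDiff_const
    exact h2.differentiable (by simp)
  set X : Matrix ι ι ℂ := ∑ j, c j • Z j with hX
  -- derivative along the ray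
  have hd1 : HasDerivAt (fun t : ℝ => fderiv ℝ (ff lev A Z) (t • c) c) (D2 (ff lev A Z) c c) 0 := by
    have hl : HasDerivAt (fun s : ℝ => s • c) c 0 := by
      simpa using (hasDerivAt_id (0 : ℝ)).smul_const c
    have hf' : HasFDerivAt (fun p => fderiv ℝ (ff lev A Z) p c)
        (fderiv ℝ (fun p => fderiv ℝ (ff lev A Z) p c) 0) ((0 : ℝ) • c) := by
      rw [zero_smul]; exact (hdp 0).hasFDerivAt
    exact hf'.comp_hasDerivAt (0 : ℝ) hl
  -- the continuous linear functional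
  let ℓ : Matrix ι ι ℂ →L[ℝ] ℝ := LinearMap.toContinuousLinearMap
    { toFun := fun M => 2 * (trace (X * M)).re
      map_add' := fun M N => by rw [Matrix.mul_add, Matrix.trace_add, Complex.add_re]; ring
      map_smul' := fun r M => by
        rw [Matrix.mul_smul, Matrix.trace_smul, Complex.smul_re]
        simp only [smul_eq_mul, RingHom.id_apply]
        ring }
  have hℓ : ∀ M, ℓ M = 2 * (trace (X * M)).re := fun M => rfl
  have hd2 : HasDerivAt (fun t : ℝ => fderiv ℝ (ff lev A Z) (t • c) c) (ℓ (DHm lev A X)) 0 := by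
    have hfun : (fun t : ℝ => fderiv ℝ (ff lev A Z) (t • c) c) = fun t : ℝ =>
        ℓ ((fun g : Matrix ι ι ℂ => Hm lev (g * A * g⁻¹)) (NormedSpace.exp (t • X))) := by
      funext t
      rw [ff_deriv lev hI h1 A hA Z c t, hℓ]
    rw [hfun]
    have hs := (hI.smoothH _ hA).differentiableAt (by simp) |>.hasFDerivAt
    have hs' : HasFDerivAt (fun g : Matrix ι ι ℂ => Hm lev (g * A * g⁻¹))
        (fderiv ℝ (fun g : Matrix ι ι ℂ => Hm lev (g * A * g⁻¹)) 1)
        (NormedSpace.exp ((0 : ℝ) • X)) := by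
      rw [zero_smul, NormedSpace.exp_zero]; exact hs
    have hc : HasDerivAt (fun t : ℝ => (fun g : Matrix ι ι ℂ => Hm lev (g * A * g⁻¹))
        (NormedSpace.exp (t • X))) (DHm lev A X) 0 := by
      have hc' := HasFDerivAt.comp_hasDerivAt (l := fun g : Matrix ι ι ℂ => Hm lev (g * A * g⁻¹))
        (f := fun t : ℝ => NormedSpace.exp (t • X)) (0 : ℝ) hs' (hd_exp X)
      exact hc'
    exact ℓ.hasFDerivAt.comp_hasDerivAt (0 : ℝ) hc
  rw [hd1.unique hd2, hℓ]

end Pool.Agent.Helper14.NO
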